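import Mathlib
import Pool.Agent.R229.HN.UpMain

/-! # Domains agreeing near infinity with different Bergman numbers -/

set_option autoImplicit false

open Set Metric
open Pool.Agent.R229.HN

namespace Pool.Agent.Results.MP_1ae38f_an.BergmanNumbersDiffer

/-- There are two plane domains which agree outside the closed unit disc such that all Bergman
numbers of the second are infinite, while those of the first are finite. -/
theorem result : ∃ D₁ D₂ : Set ℂ, IsOpen D₁ ∧ IsConnected D₁ ∧ IsOpen D₂ ∧ IsConnected D₂ ∧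
    D₁ ∩ {z | 1 < ‖z‖} = D₂ ∩ {z | 1 < ‖z‖} ∧
    (bergmanNumber D₁ ≤ 3 ∧ bergmanNumber D₂ = ⊤) ∧
    ∀ α : ℝ, -1 < α →
      bergmanNumberA α D₁ ≤ ENNReal.ofReal (3 * (α + 2)) ∧ bergmanNumberA α D₂ = ⊤ :=
  ⟨D fun _ => 0, D L, D_open _, D_conn fun _ => le_rfl, D_open _, D_conn L_nonneg, D_agree,
    ⟨bergman_low, bergman_up⟩, fun _ hα => ⟨bergmanA_low hα, bergmanA_up hα⟩⟩

end Pool.Agent.Results.MP_1ae38f_an.BergmanNumbersDiffer
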